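import Mathlib

/-!
Decision trees for three-sum with three kinds of questions: the signs of polynomials in four of the
inputs, the sign of an affine form with separated coefficients in five of the inputs, and whether
a polynomial in all the inputs is zero.
-/

namespace Pool.Agent.MixLin

/-- Three pairwise distinct positions `i`, `j`, `k` with `x i + x j = σ * x k`. For `σ = 1` this is
the question whether `a + b = c` has a solution in three different elements of the input, and for
`σ = -1` whether `a + b + c = 0` has one. -/
def HasTriple {n : ℕ} (σ : ℤ) (x : Fin n → ℤ) : Prop :=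
  ∃ i j k, i ≠ j ∧ i ≠ k ∧ j ≠ k ∧ x i + x j = σ * x k

/-- Decision trees on `n` inputs. A leaf gives the answer. A node of the kind `loc` looks at the
inputs at the four positions `pos` and branches on the signs (negative, zero or positive) of the
`m` polynomials `P j` in them. A node of the kind `aff` branches on the sign of the affine form
`∑ i, c i * x i + b`. A node of the kind `zero` tests whether the value of the polynomial `f` at the
input is zero. -/
inductive DTree (n : ℕ)
  | leaf (r : Bool) : DTree n
  | loc (pos : Fin 4 → Fin n) (m : ℕ) (P : Fin m → MvPolynomial (Fin 4) ℝ)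
      (next : (Fin m → SignType) → DTree n) : DTree n
  | aff (c : Fin n → ℝ) (b : ℝ) (next : SignType → DTree n) : DTree n
  | zero (f : MvPolynomial (Fin n) ℝ) (yes no : DTree n) : DTree n

namespace DTree

variable {n : ℕ}

open Classical in
/-- The answer of the tree on the input `x`. -/
noncomputable def answer (x : Fin n → ℤ) : DTree n → Bool
  | leaf r => r
  | loc pos _ P next =>
      (next fun j => SignType.sign (MvPolynomial.eval (fun i => (x (pos i) : ℝ)) (P j))).answer x
  | aff c b next => (next (SignType.sign (∑ i, c i * (x i : ℝ) + b))).answer x
  | zero f yes no =>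
      if MvPolynomial.eval (fun i => (x i : ℝ)) f = 0 then yes.answer x else no.answer x

open Classical in
/-- The cost of the tree on the input `x`: every question of the kinds `loc` and `aff` costs `1`, and
a test whether a polynomial is zero costs the degree of the polynomial. -/
noncomputable def cost (x : Fin n → ℤ) : DTree n → ℕ
  | leaf _ => 0
  | loc pos _ P next =>
      (next fun j => SignType.sign (MvPolynomial.eval (fun i => (x (pos i) : ℝ)) (P j))).cost x + 1
  | aff c b next => (next (SignType.sign (∑ i, c i * (x i : ℝ) + b))).cost x + 1
  | zero f yes no =>
      (if MvPolynomial.eval (fun i => (x i : ℝ)) f = 0 then yes.cost x else no.cost x) +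
        f.totalDegree

end DTree

/-- The absolute values of any two entries of `c` are equal or differ by a factor at least
`1 + 1 / C`. For instance, this holds if all entries are integers of absolute value at most
`C + 1`. -/
def Separated {ι : Type*} (C : ℝ) (c : ι → ℝ) : Prop :=
  ∀ i j, |c i| < |c j| → (C + 1) * |c i| ≤ C * |c j|

/-- Every affine form of the tree involves at most five of the inputs and has `C`-separated
coefficients. -/
inductive Admissible {n : ℕ} (C : ℝ) : DTree n → Prop
  | leaf (r : Bool) : Admissible C (.leaf r)
  | loc (pos : Fin 4 → Fin n) (m : ℕ) (P : Fin m → MvPolynomial (Fin 4) ℝ)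
      (next : (Fin m → SignType) → DTree n) :
      (∀ r, Admissible C (next r)) → Admissible C (.loc pos m P next)
  | aff (c : Fin n → ℝ) (b : ℝ) (next : SignType → DTree n) :
      {i | c i ≠ 0}.ncard ≤ 5 → Separated C c → (∀ r, Admissible C (next r)) →
      Admissible C (.aff c b next)
  | zero (f : MvPolynomial (Fin n) ℝ) (yes no : DTree n) :
      Admissible C yes → Admissible C no → Admissible C (.zero f yes no)

open Classical in
/-- A randomised decision procedure, given by a probability distribution `μ` on a finite
family `A` of admissible decision trees. On every input of `n` distinct integers the answer is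
correct with probability at least `2/3`, and the expected cost is at most `E`. -/
def Solver {Ω : Type} [Fintype Ω] (σ : ℤ) (n : ℕ) (C : ℝ) (E : ℝ) (μ : Ω → ℝ)
    (A : Ω → DTree n) : Prop :=
  (∀ ω, 0 ≤ μ ω) ∧ ∑ ω, μ ω = 1 ∧ (∀ ω, Admissible C (A ω)) ∧
    ∀ x : Fin n → ℤ, Function.Injective x →
      (2 / 3 ≤ ∑ ω, if ((A ω).answer x = true ↔ HasTriple σ x) then μ ω else 0) ∧
        ∑ ω, μ ω * ((A ω).cost x : ℝ) ≤ E

end Pool.Agent.MixLin
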