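import Pool.Agent.MixLin.Graph
import Pool.Agent.FiveLin.Final5

/-!
The lower bound for decision trees with the three kinds of questions.
-/

namespace Pool.Agent.MixLin

open Pool.Agent.FourLin

theorem main : ∃ N₀ : ℕ, ∀ n ≥ N₀, ∀ σ : ℤ, σ = 1 ∨ σ = -1 →
    ∀ C : ℝ, 1 ≤ C → C ≤ (2 : ℝ) ^ (Real.sqrt (Real.logb 2 n) / 12) →
    ∀ (Ω : Type) [Fintype Ω] (E : ℝ) (μ : Ω → ℝ) (A : Ω → DTree n), Solver σ n C E μ A →
      (n : ℝ) * (2 : ℝ) ^ (Real.sqrt (Real.logb 2 n) / 12) / Real.sqrt C ≤ E := by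
  obtain ⟨N₀, hN₀⟩ := exists_large5
  refine ⟨N₀, ?_⟩
  intro n hn σ hσ C hC hC2 Ω _ E μ A h
  obtain ⟨X, I, T, i1, i2, i3, i4, Γ, P, hpen, hw, hwt, ⟨emb⟩, hT⟩ := hN₀ n hn C hC hC2
  have h1 := mixed_bound P hpen hw hwt emb hσ h
  have h2 : 0 < Real.sqrt C := Real.sqrt_pos.2 (by linarith)
  rw [div_le_iff₀ h2]
  have h3 := mul_le_mul_of_nonneg_right h1 h2.le
  linarith

end Pool.Agent.MixLin
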