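import Pool.Agent.FourLin.FourFrame
import Pool.Agent.FiveLin.Adv5

/-!
Consequences of the perturbations `Pert5` for questions about four inputs.
-/

set_option linter.unusedSectionVars false
set_option linter.unusedSimpArgs false

namespace Pool.Agent.MixLin

open Pool.Agent.FourLin Finset Filter

variable {X I T : Type*} [DecidableEq X] [Fintype I] [DecidableEq I] [Fintype T]
variable {Γ : TGraph X I T} {C : ℝ}

/-- The perturbations with heights are perturbations in the sense of `Pert`. -/
noncomputable def toPert (P : Pert5 Γ C) : Pert Γ where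
  w := P.w
  wt := P.wt
  pos t := by
    rw [P.tau_w]
    have h1 := P.le_H t
    have h2 := P.P_le_N
    have h3 := P.zero_le_P
    have h4 := P.D_pos
    have : 0 < P.H t := by linarith
    positivity
  zero := P.zero
  pos' t t' h := by
    have h1 := abs_le.1 (P.tau_wt t t' h)
    have h2 := P.H_le t
    have h3 := P.le_H t'
    have h4 := P.P_le_N
    have h5 := P.zero_le_P
    have h6 := P.lt_D
    have h7 : P.D * 1 ≤ P.D * P.H t' := mul_le_mul_of_nonneg_left (by linarith) P.D_pos.le
    nlinarith [h1.1]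
  diff t' t'' k hne hk heq := by
    rw [P.tau_w, P.tau_w] at heq
    have h1 := mul_left_cancel₀ P.D_pos.ne' heq
    have h2 := P.diff t' t'' k hne hk
    rw [h1, sub_self, abs_zero] at h2
    linarith
  diff' t t' t'' k hne hk h1 h2 := by
    rw [P.tau_w, P.tau_w]
    have h3 : Γ.tau t' (P.wt t) - Γ.tau t'' (P.wt t) = (P.D * P.H t' - P.D * P.H t'') +
        ((Γ.tau t' (P.wt t) - P.D * P.H t') - (Γ.tau t'' (P.wt t) - P.D * P.H t'')) := by ring
    rw [h3]
    apply sign_add_of_lt
    have h4 := P.tau_wt t t' (Ne.symm h1)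
    have h5 := P.tau_wt t t'' (Ne.symm h2)
    have h6 := P.H_le t
    have h7 := P.diff t' t'' k hne hk
    have h8 : |P.D * P.H t' - P.D * P.H t''| = P.D * |P.H t' - P.H t''| := by
      rw [← mul_sub, abs_mul, abs_of_pos P.D_pos]
    have h9 := abs_sub (Γ.tau t' (P.wt t) - P.D * P.H t') (Γ.tau t'' (P.wt t) - P.D * P.H t'')
    have h10 : P.D * 1 ≤ P.D * |P.H t' - P.H t''| := mul_le_mul_of_nonneg_left h7 P.D_pos.le
    have h11 := P.lt_D
    have h12 := P.zero_le_P
    have h13 := P.P_le_N
    rw [h8]
    linarith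

/-- Every vector agrees on four positions with a base point plus a multiple of the basic
perturbation. -/
lemma full_four (P : Pert Γ) {n : ℕ} (emb : I ↪ Fin n) {σ : ℝ} (hσ : σ = 1 ∨ σ = -1)
    (pos : Fin 4 → Fin n) (v : Fin n → ℝ) :
    ∃ (ω : vset Γ ⊕ Fin n → ℝ) (m : ℝ), ∀ i,
      v (pos i) = base Γ σ emb ω (pos i) + m * zed Γ σ emb P.w (pos i) := by
  classical
  set E : Finset I := univ.filter fun e => emb e ∈ Set.range pos with hE
  have hEcard : E.card ≤ 4 := card_edges emb pos
  have hsupp : ∀ c : Fin n → ℝ, (∀ j, j ∉ Set.range pos → c j = 0) → ∀ e,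
      c (emb e) * sg Γ σ e ≠ 0 → e ∈ E := by
    intro c hc e he
    rw [hE, Finset.mem_filter]
    refine ⟨mem_univ _, ?_⟩
    by_contra hcon
    exact he (by rw [hc _ hcon, zero_mul])
  by_cases hex : ∃ c : Fin n → ℝ, c ≠ 0 ∧ (∀ j, j ∉ Set.range pos → c j = 0) ∧
      ∀ θ, ∑ j, c j * base Γ σ emb θ j = 0
  · obtain ⟨c0, hc0, hc0s, hc0r⟩ := hex
    obtain ⟨hd0, hcirc0⟩ := of_base_eq_zero σ emb c0 hc0r
    set α0 : I → ℝ := fun e => c0 (emb e) * sg Γ σ e with hα0
    obtain ⟨e0, he0⟩ : ∃ e, α0 e ≠ 0 := by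
      by_contra hcon
      push Not at hcon
      apply hc0
      funext j
      by_cases hj : ∃ e, emb e = j
      · obtain ⟨e, rfl⟩ := hj
        exact (mul_eq_zero.1 (hcon e)).resolve_right (sg_ne_zero hσ e)
      · exact hd0 j (fun e he => hj ⟨e, he⟩)
    have hcard0 : (univ.filter (α0 · ≠ 0)).card ≤ 4 := by
      refine le_trans (Finset.card_le_card ?_) hEcard
      intro e he
      exact hsupp c0 hc0s e (Finset.mem_filter.1 he).2
    have hw0 : ∑ e, α0 e * P.w e ≠ 0 := P.ne_zero hcirc0 hcard0 (fun h => he0 (congrFun h e0))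
    set m : ℝ := (∑ j, c0 j * v j) / (∑ e, α0 e * P.w e) with hm
    obtain ⟨ω, hω⟩ := exists_omega (base Γ σ emb) pos
      (fun j => v j - m * zed Γ σ emb P.w j) (by
        intro c' hc's hc'r
        obtain ⟨hd', hcirc'⟩ := of_base_eq_zero σ emb c' hc'r
        have huniq := Γ.circ_unique hcirc0 hcirc' hEcard (hsupp c0 hc0s) (hsupp c' hc's) he0
        set l := c' (emb e0) * sg Γ σ e0 / α0 e0 with hl
        have hc' : ∀ j, c' j = l * c0 j := by
          intro j
          by_cases hj : ∃ e, emb e = j
          · obtain ⟨e, rfl⟩ := hj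
            have h1 := huniq e
            simp only [hα0] at h1
            have h2 : (c' (emb e) - l * c0 (emb e)) * sg Γ σ e = 0 := by
              rw [sub_mul, h1]
              ring
            exact sub_eq_zero.1 ((mul_eq_zero.1 h2).resolve_right (sg_ne_zero hσ e))
          · rw [hd' j (fun e he => hj ⟨e, he⟩), hd0 j (fun e he => hj ⟨e, he⟩), mul_zero]
        have h1 : ∀ u : Fin n → ℝ, ∑ j, c' j * u j = l * ∑ j, c0 j * u j := by
          intro u
          rw [Finset.mul_sum]
          apply Finset.sum_congr rfl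
          intro j _
          rw [hc']
          ring
        have h2 : ∑ j, c' j * (v j - m * zed Γ σ emb P.w j) =
            ∑ j, c' j * v j - m * ∑ j, c' j * zed Γ σ emb P.w j := by
          rw [Finset.mul_sum, ← Finset.sum_sub_distrib]
          apply Finset.sum_congr rfl
          intro j _
          ring
        rw [h2, h1, h1, sum_zed]
        have h3 : m * ∑ e, α0 e * P.w e = ∑ j, c0 j * v j := by
          rw [hm]
          field_simp
        have h4 : ∑ e, (c0 (emb e) * sg Γ σ e) * P.w e = ∑ e, α0 e * P.w e := rfl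
        rw [h4]
        linear_combination (-l) * h3)
    exact ⟨ω, m, fun i => by have := hω i; linarith⟩
  · obtain ⟨ω, hω⟩ := exists_omega (base Γ σ emb) pos v (by
      intro c hcs hcr
      have : c = 0 := by
        by_contra h0
        exact hex ⟨c, h0, hcs, hcr⟩
      simp [this])
    exact ⟨ω, 0, fun i => by rw [hω i]; ring⟩

end Pool.Agent.MixLin
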