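import Mathlib

/-!
A polynomial of degree at most `d` which is not zero vanishes on at most `d` hyperplanes through
the origin.
-/

namespace Pool.Agent.MixLin

lemma exists_eval_ne {n : ℕ} (p : MvPolynomial (Fin n) ℝ) (hp : p ≠ 0) :
    ∃ x : Fin n → ℝ, MvPolynomial.eval x p ≠ 0 := by
  by_contra h
  push Not at h
  exact hp (MvPolynomial.funext fun x => by rw [h x, map_zero])

/-- The linear form with coefficients `c`. -/
noncomputable def linForm {n : ℕ} (c : Fin n → ℝ) : MvPolynomial (Fin n) ℝ :=
  ∑ i, MvPolynomial.C (c i) * MvPolynomial.X i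

lemma eval_linForm {n : ℕ} (c x : Fin n → ℝ) :
    MvPolynomial.eval x (linForm c) = ∑ i, c i * x i := by
  simp [linForm, map_sum]

lemma linForm_ne {n : ℕ} (c : Fin n → ℝ) {i : Fin n} (h : c i ≠ 0) : linForm c ≠ 0 := by
  intro h0
  have h1 := eval_linForm c (Pi.single i 1)
  rw [h0, map_zero, Finset.sum_eq_single i] at h1
  · simp at h1
    exact h h1.symm
  · intro j _ hj
    simp [Pi.single_eq_of_ne hj]
  · intro hi
    exact absurd (Finset.mem_univ i) hi

/-- Proof: choose `v` with `l t · v ≠ 0` for all `t`, then `u` with `f u ≠ 0` and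
`(l t · u) (l t' · v) ≠ (l t' · u) (l t · v)` for `t ≠ t'`; the polynomial `f (u + s v)` in `s` is
not zero, has degree at most `d`, and has the distinct zeros `- (l t · u) / (l t · v)`. -/
theorem card_hyperplanes {T : Type*} {n d : ℕ} (f : MvPolynomial (Fin n) ℝ) (hf : f ≠ 0)
    (hd : f.totalDegree ≤ d) (S : Finset T) (l : T → Fin n → ℝ)
    (hprop : ∀ t ∈ S, ∀ t' ∈ S, t ≠ t' → ∀ a b : ℝ, (∀ i, a * l t i = b * l t' i) → a = 0 ∧ b = 0)
    (hl : ∀ t ∈ S, ∃ i, l t i ≠ 0)
    (hvan : ∀ t ∈ S, ∀ x : Fin n → ℝ, ∑ i, l t i * x i = 0 → MvPolynomial.eval x f = 0) :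
    S.card ≤ d := by
  classical
  obtain ⟨v, hv⟩ := exists_eval_ne (∏ t ∈ S, linForm (l t)) (by
    rw [Finset.prod_ne_zero_iff]
    intro t ht
    obtain ⟨i, hi⟩ := hl t ht
    exact linForm_ne _ hi)
  rw [map_prod, Finset.prod_ne_zero_iff] at hv
  have hv' : ∀ t ∈ S, ∑ i, l t i * v i ≠ 0 := fun t ht => by
    rw [← eval_linForm]; exact hv t ht
  set D : T → T → MvPolynomial (Fin n) ℝ := fun t t' =>
    linForm (fun i => (∑ j, l t' j * v j) * l t i - (∑ j, l t j * v j) * l t' i) with hD
  obtain ⟨u, hu⟩ := exists_eval_ne (f * ∏ p ∈ S.offDiag, D p.1 p.2) (by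
    refine mul_ne_zero hf ?_
    rw [Finset.prod_ne_zero_iff]
    rintro ⟨t, t'⟩ hp
    rw [Finset.mem_offDiag] at hp
    obtain ⟨h1, h2, h3⟩ := hp
    simp only at h1 h2 h3
    by_contra h0
    have h4 : ∀ i, (∑ j, l t' j * v j) * l t i = (∑ j, l t j * v j) * l t' i := by
      intro i
      by_contra h5
      exact linForm_ne (fun i => (∑ j, l t' j * v j) * l t i - (∑ j, l t j * v j) * l t' i)
        (i := i) (sub_ne_zero.2 h5) h0
    exact hv' t' h2 (hprop t h1 t' h2 h3 _ _ h4).1)
  rw [map_mul, map_prod, mul_ne_zero_iff, Finset.prod_ne_zero_iff] at hu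
  obtain ⟨hu1, hu2⟩ := hu
  set g : Polynomial ℝ := MvPolynomial.aeval
    (fun i => Polynomial.C (u i) + Polynomial.C (v i) * Polynomial.X) f with hg
  have hev : ∀ s : ℝ, g.eval s = MvPolynomial.eval (fun i => u i + v i * s) f := by
    intro s
    rw [hg, ← Polynomial.coe_evalRingHom, ← Polynomial.coe_aeval_eq_evalRingHom,
      RingHom.coe_coe, ← AlgHom.comp_apply, MvPolynomial.comp_aeval,
      MvPolynomial.aeval_eq_eval]
    simp only [map_add, map_mul, Polynomial.aeval_C, Polynomial.aeval_X,
      Algebra.algebraMap_self, RingHom.id_apply]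
  have hg0 : g ≠ 0 := by
    intro h0
    apply hu1
    have h1 := hev 0
    rw [h0, Polynomial.eval_zero] at h1
    rw [h1]
    simp
  have hdeg : g.natDegree ≤ d := by
    have h1 := MvPolynomial.aeval_natDegree_le f hd
      (fun i => Polynomial.C (u i) + Polynomial.C (v i) * Polynomial.X) (n := 1) (fun i => by
        refine (Polynomial.natDegree_add_le _ _).trans ?_
        rw [Polynomial.natDegree_C]
        refine max_le (by omega) ?_
        exact Polynomial.natDegree_C_mul_le _ _ |>.trans Polynomial.natDegree_X_le)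
    simpa using h1
  set z : T → ℝ := fun t => -(∑ i, l t i * u i) / (∑ i, l t i * v i) with hz
  have hroot : ∀ t ∈ S, g.IsRoot (z t) := by
    intro t ht
    rw [Polynomial.IsRoot, hev]
    apply hvan t ht
    have h1 := hv' t ht
    calc ∑ i, l t i * (u i + v i * z t) = ∑ i, l t i * u i + (∑ i, l t i * v i) * z t := by
          rw [Finset.sum_mul, ← Finset.sum_add_distrib]
          exact Finset.sum_congr rfl fun i _ => by ring
      _ = 0 := by
          rw [hz]
          simp only
          field_simp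
          ring
  have hinj : Set.InjOn z S := by
    intro t ht t' ht' h
    by_contra hne
    have h1 := hu2 (t, t') (by rw [Finset.mem_offDiag]; exact ⟨ht, ht', hne⟩)
    apply h1
    simp only [hD]
    rw [eval_linForm]
    have h2 := hv' t ht
    have h3 := hv' t' ht'
    have h4 : (∑ i, l t i * u i) * (∑ i, l t' i * v i) =
        (∑ i, l t' i * u i) * (∑ i, l t i * v i) := by
      simp only [hz] at h
      rw [div_eq_div_iff h2 h3] at h
      linarith
    calc ∑ i, ((∑ j, l t' j * v j) * l t i - (∑ j, l t j * v j) * l t' i) * u i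
        = (∑ j, l t' j * v j) * (∑ i, l t i * u i) -
            (∑ j, l t j * v j) * (∑ i, l t' i * u i) := by
          rw [Finset.mul_sum, Finset.mul_sum, ← Finset.sum_sub_distrib]
          exact Finset.sum_congr rfl fun i _ => by ring
      _ = 0 := by linarith
  calc S.card = (S.image z).card := (Finset.card_image_of_injOn hinj).symm
    _ ≤ g.roots.toFinset.card := by
        apply Finset.card_le_card
        intro s hs
        obtain ⟨t, ht, rfl⟩ := Finset.mem_image.1 hs
        rw [Multiset.mem_toFinset, Polynomial.mem_roots hg0]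
        exact hroot t ht
    _ ≤ g.roots.card := Multiset.toFinset_card_le _
    _ ≤ g.natDegree := Polynomial.card_roots' g
    _ ≤ d := hdeg

end Pool.Agent.MixLin
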