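import Pool.Agent.FourLin.Point

/-!
Integer inputs `x o = Λ θ + M z o + Z o κ` with `M` large and the coordinates of `θ` very large:
signs of polynomials in few coordinates, signs of affine forms, and zeros of polynomials.
-/

namespace Pool.Agent.MixLin

open Pool.Agent.FourLin Filter

/-- A shift by a constant vector preserves the iterated limit. -/
lemma tendsto_shift (k : ℕ) (w : Fin k → ℝ) :
    Tendsto (fun (a : Fin k → ℝ) i => a i + w i) (scale k) (scale k) := by
  induction k with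
  | zero =>
    have : (fun (a : Fin 0 → ℝ) (i : Fin 0) => a i + w i) = id := by
      funext a i
      exact Fin.elim0 i
    rw [this]
    exact tendsto_id
  | succ k ih =>
    have := tendsto_scale_succ (ih (fun i => w i.succ)) (r := fun _ t => t + w 0)
      (fun a => tendsto_atTop_add_const_right _ _ tendsto_id)
    refine this.congr ?_
    intro b
    funext i
    refine Fin.cases ?_ (fun i => ?_) i
    · simp only [Fin.cons_zero]
    · simp only [Fin.cons_succ, Fin.tail]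

/-- The general shift of the parameters. -/
lemma tendsto_shift_scale (k : ℕ) (ω w : Fin (k + 1) → ℝ) (h : -1 < ω (Fin.last k)) :
    Tendsto (fun (a : Fin (k + 1) → ℝ) i => a i + a (Fin.last k) * ω i + w i)
      (scale (k + 1)) (scale (k + 1)) :=
  (tendsto_shift (k + 1) w).comp (tendsto_scale k ω h)

/-- The last coordinate is large. -/
lemma tendsto_last (k : ℕ) :
    Tendsto (fun a : Fin (k + 1) → ℝ => a (Fin.last k)) (scale (k + 1)) atTop := by
  induction k with
  | zero =>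
    intro p hp
    show ∀ᶠ a in scale 1, a (Fin.last 0) ∈ p
    rw [eventually_scale_succ]
    refine Eventually.of_forall fun a => ?_
    have hp' : ∀ᶠ t in (atTop : Filter ℝ), t ∈ p := hp
    filter_upwards [hp'] with t ht
    exact ht
  | succ k ih =>
    intro p hp
    have h1 : ∀ᶠ a in scale (k + 1), a (Fin.last k) ∈ p := ih.eventually hp
    show ∀ᶠ a in scale (k + 1 + 1), a (Fin.last (k + 1)) ∈ p
    rw [eventually_scale_succ]
    filter_upwards [h1] with a ha
    refine Eventually.of_forall fun t => ?_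
    rw [← Fin.succ_last, Fin.cons_succ]
    exact ha

/-- The coordinates of `pt` with a constant added. -/
lemma eval_ptPoly_add {k n : ℕ} (Λ : (Fin k → ℝ) →ₗ[ℝ] (Fin n → ℝ)) (z : Fin n → ℝ) (v : ℝ)
    (a : Fin (k + 1) → ℝ) (i : Fin n) :
    MvPolynomial.eval a (ptPoly Λ z i + MvPolynomial.C v) = pt Λ z a i + v := by
  rw [map_add, eval_ptPoly, MvPolynomial.eval_C]

lemma eval_bind {m k : ℕ} (p : Fin m → MvPolynomial (Fin k) ℝ) (f : MvPolynomial (Fin m) ℝ)
    (a : Fin k → ℝ) : MvPolynomial.eval a (MvPolynomial.bind₁ p f) =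
      MvPolynomial.eval (fun i => MvPolynomial.eval a (p i)) f := by
  rw [← MvPolynomial.coe_aeval_eq_eval, ← MvPolynomial.coe_aeval_eq_eval]
  simp only [RingHom.coe_coe, MvPolynomial.aeval_bind₁]

/-- The points `pt` for shifted parameters. -/
lemma pt_param {k n : ℕ} (Λ : (Fin k → ℝ) →ₗ[ℝ] (Fin n → ℝ)) (z : Fin n → ℝ)
    (a : Fin (k + 1) → ℝ) (ω w : Fin k → ℝ) (c m : ℝ) (i : Fin n) :
    pt Λ z (fun j => a j + a (Fin.last k) * (Fin.snoc ω (c - 1) : Fin (k + 1) → ℝ) j +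
      (Fin.snoc w m : Fin (k + 1) → ℝ) j) i =
      Λ (fun j => a j.castSucc) i + a (Fin.last k) * Λ ω i + Λ w i +
        (c * a (Fin.last k) + m) * z i := by
  unfold pt
  have h1 : (fun j : Fin k => a j.castSucc + a (Fin.last k) *
      (Fin.snoc ω (c - 1) : Fin (k + 1) → ℝ) j.castSucc +
        (Fin.snoc w m : Fin (k + 1) → ℝ) j.castSucc) =
      (fun j => a j.castSucc) + a (Fin.last k) • ω + w := by
    funext j
    simp [Fin.snoc_castSucc]
  rw [h1, map_add, map_add, map_smul]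
  simp only [Pi.add_apply, Pi.smul_apply, smul_eq_mul, Fin.snoc_last]
  ring

lemma exists_kappa {n : ℕ} {O : Type*} [Finite O]
    (Z : O → ((Fin n → ℝ) →ₗ[ℝ] (Fin n → ℝ)))
    (F : Set (MvPolynomial (Fin n) ℝ)) (hF : F.Finite) :
    ∃ κ : Fin n → ℤ, ∀ f ∈ F, ∀ o,
      MvPolynomial.eval (Z o (fun j => (κ j : ℝ))) f = 0 →
        ∀ v, MvPolynomial.eval (Z o v) f = 0 := by
  classical
  set lin : O → Fin n → MvPolynomial (Fin n) ℝ := fun o i =>
    ∑ j : Fin n, MvPolynomial.C (Z o (fun l => if j = l then 1 else 0) i) * MvPolynomial.X j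
    with hlin
  have hl : ∀ o i (v : Fin n → ℝ), MvPolynomial.eval v (lin o i) = Z o v i := by
    intro o i v
    simp only [hlin]
    rw [LinearMap.pi_apply_eq_sum_univ (Z o) v]
    simp only [map_sum, map_mul, MvPolynomial.eval_C, MvPolynomial.eval_X,
      Finset.sum_apply, Pi.smul_apply, smul_eq_mul]
    apply Finset.sum_congr rfl
    intro j _
    ring
  have hev : ∀ o (f : MvPolynomial (Fin n) ℝ) (v : Fin n → ℝ),
      MvPolynomial.eval v (MvPolynomial.bind₁ (lin o) f) = MvPolynomial.eval (Z o v) f := by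
    intro o f v
    rw [eval_bind]
    congr 2
    funext i
    exact hl o i v
  have hall : ∀ᶠ v in scale n, ∀ f ∈ F, ∀ o,
      MvPolynomial.eval (Z o v) f = 0 → ∀ v, MvPolynomial.eval (Z o v) f = 0 := by
    rw [eventually_all_finite hF]
    intro f _
    rw [eventually_all]
    intro o
    by_cases h0 : MvPolynomial.bind₁ (lin o) f = 0
    · refine Eventually.of_forall fun v _ v' => ?_
      rw [← hev, h0, map_zero]
    · obtain ⟨S, hS, hev'⟩ := exists_sign (MvPolynomial.bind₁ (lin o) f)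
      filter_upwards [hev'] with v hv h1
      rw [hev, h1, sign_zero] at hv
      exact absurd hv.symm (hS h0)
  exact exists_int hall

lemma exists_inputs_fin {k : ℕ} {n : ℕ} (Λ : (Fin k → ℝ) →ₗ[ℝ] (Fin n → ℝ))
    (hΛ : ∀ θ : Fin k → ℤ, ∃ x : Fin n → ℤ, ∀ i, Λ (fun j => (θ j : ℝ)) i = (x i : ℝ))
    {O : Type*} [Finite O] (z : O → Fin n → ℝ) (hz : ∀ o i, ∃ m : ℤ, z o i = m)
    (Z : O → ((Fin n → ℝ) →ₗ[ℝ] (Fin n → ℝ)))
    (hZ : ∀ o, ∀ κ : Fin n → ℤ, ∃ x : Fin n → ℤ, ∀ i, Z o (fun j => (κ j : ℝ)) i = (x i : ℝ))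
    (F : Set (MvPolynomial (Fin n) ℝ)) (hF : F.Finite)
    (Q : Set ((Fin 4 → Fin n) × MvPolynomial (Fin 4) ℝ)) (hQ : Q.Finite)
    (B : Set ((Fin n → ℝ) × ℝ)) (hB : B.Finite) :
    ∃ x : O → Fin n → ℤ,
      (∀ o, ∃ (θ : Fin k → ℝ) (M : ℝ) (κ : Fin n → ℝ), ∀ i,
        (x o i : ℝ) = Λ θ i + M * z o i + Z o κ i) ∧
      (∀ f ∈ F, ∀ o, MvPolynomial.eval (fun i => (x o i : ℝ)) f = 0 →
        ∀ κ, MvPolynomial.eval (Z o κ) f = 0) ∧
      (∀ q ∈ Q, ∀ o o', (∀ v : Fin n → ℝ, ∃ (ω : Fin k → ℝ) (m : ℝ), ∀ i,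
          v (q.1 i) = Λ ω (q.1 i) + m * z o' (q.1 i)) →
        (∃ c : ℝ, 0 < c ∧ ∃ ω : Fin k → ℝ, ∀ i, z o (q.1 i) = c * z o' (q.1 i) + Λ ω (q.1 i)) →
        SignType.sign (MvPolynomial.eval (fun i => (x o (q.1 i) : ℝ)) q.2) =
          SignType.sign (MvPolynomial.eval (fun i => (x o' (q.1 i) : ℝ)) q.2)) ∧
      (∀ q ∈ B, (∃ θ, ∑ i, q.1 i * Λ θ i ≠ 0) → ∀ o o',
        SignType.sign (∑ i, q.1 i * (x o i : ℝ) + q.2) =
          SignType.sign (∑ i, q.1 i * (x o' i : ℝ) + q.2)) ∧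
      (∀ q ∈ B, (∀ θ, ∑ i, q.1 i * Λ θ i = 0) → ∀ o, ∑ i, q.1 i * z o i ≠ 0 →
        SignType.sign (∑ i, q.1 i * (x o i : ℝ) + q.2) =
          SignType.sign (∑ i, q.1 i * z o i)) := by
  classical
  obtain ⟨κ, hκ⟩ := exists_kappa Z F hF
  set u : O → Fin n → ℝ := fun o => Z o (fun j => (κ j : ℝ)) with hu
  -- signs of the local questions, without the constant vector
  have hsign : ∀ (q : (Fin 4 → Fin n) × MvPolynomial (Fin 4) ℝ) (o : O), ∃ S : SignType,
      ∀ᶠ a in scale (k + 1),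
        SignType.sign (MvPolynomial.eval (fun i => pt Λ (z o) a (q.1 i)) q.2) = S := by
    intro q o
    obtain ⟨S, -, hS⟩ := exists_sign (MvPolynomial.bind₁ (fun i => ptPoly Λ (z o) (q.1 i)) q.2)
    refine ⟨S, ?_⟩
    filter_upwards [hS] with a ha
    rw [← ha, eval_bind]
    congr 3
    funext i
    rw [eval_ptPoly]
  choose S hS using hsign
  -- signs of the local questions
  have hloc : ∀ (q : (Fin 4 → Fin n) × MvPolynomial (Fin 4) ℝ) (o o' : O),
      (∀ v : Fin n → ℝ, ∃ (ω : Fin k → ℝ) (m : ℝ), ∀ i,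
          v (q.1 i) = Λ ω (q.1 i) + m * z o' (q.1 i)) →
      (∃ c : ℝ, 0 < c ∧ ∃ ω : Fin k → ℝ, ∀ i, z o (q.1 i) = c * z o' (q.1 i) + Λ ω (q.1 i)) →
      ∀ᶠ a in scale (k + 1),
        SignType.sign (MvPolynomial.eval (fun i => pt Λ (z o) a (q.1 i) + u o (q.1 i)) q.2) =
        SignType.sign (MvPolynomial.eval (fun i => pt Λ (z o') a (q.1 i) + u o' (q.1 i)) q.2) := by
    rintro q o o' hv ⟨c, hc, ω, hω⟩
    have key : ∀ (z₁ v₁ : Fin n → ℝ) (c₁ : ℝ) (_ : 0 < c₁) (ω₁ : Fin k → ℝ)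
        (_ : ∀ i, z₁ (q.1 i) = c₁ * z o' (q.1 i) + Λ ω₁ (q.1 i)),
        ∀ᶠ a in scale (k + 1),
          SignType.sign (MvPolynomial.eval (fun i => pt Λ z₁ a (q.1 i) + v₁ (q.1 i)) q.2) =
            S q o' := by
      intro z₁ v₁ c₁ hc₁ ω₁ hω₁
      obtain ⟨w, m, hw⟩ := hv v₁
      have hT := tendsto_shift_scale k (Fin.snoc ω₁ (c₁ - 1) : Fin (k + 1) → ℝ)
        (Fin.snoc w m : Fin (k + 1) → ℝ) (by
          rw [Fin.snoc_last]
          linarith)
      filter_upwards [hT.eventually (hS q o')] with a ha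
      rw [← ha]
      congr 3
      funext i
      rw [pt_param, hw i]
      unfold pt
      rw [hω₁ i]
      ring
    filter_upwards [key (z o) (u o) c hc ω hω, key (z o') (u o') 1 one_pos 0 (fun i => by
      rw [map_zero]
      simp)] with a h1 h2
    rw [h1, h2]
  -- the affine forms which do not vanish on the base points
  have haff : ∀ (q : (Fin n → ℝ) × ℝ), (∃ θ, ∑ i, q.1 i * Λ θ i ≠ 0) → ∃ s : SignType, ∀ o,
      ∀ᶠ a in scale (k + 1),
        SignType.sign (∑ i, q.1 i * (pt Λ (z o) a i + u o i) + q.2) = s := by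
    rintro q ⟨θ, hθ⟩
    obtain ⟨s, -, hs⟩ := exists_sign (∑ i, MvPolynomial.C (q.1 i) * ptPoly Λ 0 i)
    refine ⟨s, fun o => ?_⟩
    set d : ℝ := ∑ i, q.1 i * Λ θ i with hd
    have hT := tendsto_shift_scale k
      (Fin.snoc (((∑ i, q.1 i * z o i) / d) • θ) (1 - 1) : Fin (k + 1) → ℝ)
      (Fin.snoc (((∑ i, q.1 i * u o i + q.2) / d) • θ) 0 : Fin (k + 1) → ℝ) (by
          rw [Fin.snoc_last]
          norm_num)
    filter_upwards [hT.eventually hs] with a ha
    rw [← ha]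
    congr 1
    simp only [map_sum, map_mul, MvPolynomial.eval_C, eval_ptPoly, pt_param, map_smul,
      Pi.smul_apply, smul_eq_mul, Pi.zero_apply, mul_zero, add_zero]
    unfold pt
    have e1 : ∑ i, q.1 i * (Λ (fun j => a j.castSucc) i + a (Fin.last k) * z o i + u o i) + q.2 =
        ∑ i, q.1 i * Λ (fun j => a j.castSucc) i + a (Fin.last k) * (∑ i, q.1 i * z o i) +
          (∑ i, q.1 i * u o i + q.2) := by
      simp only [mul_add, Finset.sum_add_distrib, Finset.mul_sum]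
      have : ∀ i, q.1 i * (a (Fin.last k) * z o i) = a (Fin.last k) * (q.1 i * z o i) :=
        fun i => by ring
      simp only [this]
      ring
    have e2 : ∑ i, q.1 i * (Λ (fun j => a j.castSucc) i +
        a (Fin.last k) * ((∑ i, q.1 i * z o i) / d * Λ θ i) +
        (∑ i, q.1 i * u o i + q.2) / d * Λ θ i) =
        ∑ i, q.1 i * Λ (fun j => a j.castSucc) i +
          a (Fin.last k) * ((∑ i, q.1 i * z o i) / d) * d +
          (∑ i, q.1 i * u o i + q.2) / d * d := by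
      rw [hd]
      simp only [mul_add, Finset.sum_add_distrib]
      rw [Finset.mul_sum Finset.univ _ (a (Fin.last k) * _), Finset.mul_sum Finset.univ _
        ((∑ i, q.1 i * u o i + q.2) / _)]
      congr 1
      · congr 1
        apply Finset.sum_congr rfl
        intro i _
        ring
      · apply Finset.sum_congr rfl
        intro i _
        ring
    rw [e1, e2]
    field_simp
  choose! s hs using haff
  -- the affine forms which vanish on the base points
  have haff0 : ∀ (q : (Fin n → ℝ) × ℝ) (o : O), (∀ θ, ∑ i, q.1 i * Λ θ i = 0) →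
      ∑ i, q.1 i * z o i ≠ 0 → ∀ᶠ a in scale (k + 1),
        SignType.sign (∑ i, q.1 i * (pt Λ (z o) a i + u o i) + q.2) =
          SignType.sign (∑ i, q.1 i * z o i) := by
    intro q o hq h0
    set d : ℝ := ∑ i, q.1 i * z o i with hd
    set e : ℝ := ∑ i, q.1 i * u o i + q.2 with he
    have hval : ∀ a : Fin (k + 1) → ℝ, ∑ i, q.1 i * (pt Λ (z o) a i + u o i) + q.2 =
        a (Fin.last k) * d + e := by
      intro a
      unfold pt
      have : ∀ i, q.1 i * (Λ (fun j => a j.castSucc) i + a (Fin.last k) * z o i + u o i) =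
          q.1 i * Λ (fun j => a j.castSucc) i + a (Fin.last k) * (q.1 i * z o i) +
            q.1 i * u o i := fun i => by ring
      simp only [this, Finset.sum_add_distrib]
      rw [hq, ← Finset.mul_sum, ← hd, he]
      ring
    rcases lt_or_gt_of_ne h0 with h | h
    · filter_upwards [(tendsto_last k).eventually_gt_atTop (e / (-d))] with a ha
      rw [hval, sign_neg h, sign_neg]
      rw [div_lt_iff₀ (by linarith)] at ha
      linarith
    · filter_upwards [(tendsto_last k).eventually_gt_atTop ((-e) / d)] with a ha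
      rw [hval, sign_pos h, sign_pos]
      rw [div_lt_iff₀ h] at ha
      linarith
  -- the zero tests
  have hzero : ∀ f ∈ F, ∀ o, ∀ᶠ a in scale (k + 1),
      MvPolynomial.eval (fun i => pt Λ (z o) a i + u o i) f = 0 →
        ∀ v, MvPolynomial.eval (Z o v) f = 0 := by
    intro f hf o
    set h : MvPolynomial (Fin (k + 1)) ℝ :=
      MvPolynomial.bind₁ (fun i => ptPoly Λ (z o) i + MvPolynomial.C (u o i)) f with hh
    have hev : ∀ a, MvPolynomial.eval a h =
        MvPolynomial.eval (fun i => pt Λ (z o) a i + u o i) f := by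
      intro a
      rw [hh, eval_bind]
      congr 2
      funext i
      rw [eval_ptPoly_add]
    by_cases h0 : h = 0
    · refine Eventually.of_forall fun a _ => hκ f hf o ?_
      have := hev 0
      rw [h0, map_zero] at this
      rw [this]
      congr 2
      funext i
      have h1 : (fun j : Fin k => (0 : Fin (k + 1) → ℝ) j.castSucc) = 0 := rfl
      unfold pt
      rw [h1, map_zero]
      simp [hu]
    · obtain ⟨s, hs, hev'⟩ := exists_sign h
      filter_upwards [hev'] with a ha h1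
      rw [hev, h1, sign_zero] at ha
      exact absurd ha.symm (hs h0)
  have hall : ∀ᶠ a in scale (k + 1),
      (∀ f ∈ F, ∀ o, MvPolynomial.eval (fun i => pt Λ (z o) a i + u o i) f = 0 →
        ∀ v, MvPolynomial.eval (Z o v) f = 0) ∧
      (∀ q ∈ Q, ∀ o o', (∀ v : Fin n → ℝ, ∃ (ω : Fin k → ℝ) (m : ℝ), ∀ i,
          v (q.1 i) = Λ ω (q.1 i) + m * z o' (q.1 i)) →
        (∃ c : ℝ, 0 < c ∧ ∃ ω : Fin k → ℝ, ∀ i, z o (q.1 i) = c * z o' (q.1 i) + Λ ω (q.1 i)) →
        SignType.sign (MvPolynomial.eval (fun i => pt Λ (z o) a (q.1 i) + u o (q.1 i)) q.2) =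
        SignType.sign (MvPolynomial.eval (fun i => pt Λ (z o') a (q.1 i) + u o' (q.1 i)) q.2)) ∧
      (∀ q ∈ B, ∀ o, (∃ θ, ∑ i, q.1 i * Λ θ i ≠ 0) →
        SignType.sign (∑ i, q.1 i * (pt Λ (z o) a i + u o i) + q.2) = s q) ∧
      (∀ q ∈ B, ∀ o, (∀ θ, ∑ i, q.1 i * Λ θ i = 0) → ∑ i, q.1 i * z o i ≠ 0 →
        SignType.sign (∑ i, q.1 i * (pt Λ (z o) a i + u o i) + q.2) =
          SignType.sign (∑ i, q.1 i * z o i)) := by
    refine Eventually.and ?_ (Eventually.and ?_ (Eventually.and ?_ ?_))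
    · rw [eventually_all_finite hF]
      intro f hf
      rw [eventually_all]
      intro o
      exact hzero f hf o
    · rw [eventually_all_finite hQ]
      intro q _
      rw [eventually_all]
      intro o
      rw [eventually_all]
      intro o'
      by_cases h1 : (∀ v : Fin n → ℝ, ∃ (ω : Fin k → ℝ) (m : ℝ), ∀ i,
          v (q.1 i) = Λ ω (q.1 i) + m * z o' (q.1 i))
      · by_cases h2 : (∃ c : ℝ, 0 < c ∧ ∃ ω : Fin k → ℝ, ∀ i,
            z o (q.1 i) = c * z o' (q.1 i) + Λ ω (q.1 i))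
        · filter_upwards [hloc q o o' h1 h2] with a ha _ _
          exact ha
        · exact Eventually.of_forall fun a _ h => absurd h h2
      · exact Eventually.of_forall fun a h => absurd h h1
    · rw [eventually_all_finite hB]
      intro q _
      rw [eventually_all]
      intro o
      by_cases h1 : ∃ θ, ∑ i, q.1 i * Λ θ i ≠ 0
      · filter_upwards [hs q h1 o] with a ha _
        exact ha
      · exact Eventually.of_forall fun a h => absurd h h1
    · rw [eventually_all_finite hB]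
      intro q _
      rw [eventually_all]
      intro o
      by_cases h1 : ∀ θ, ∑ i, q.1 i * Λ θ i = 0
      · by_cases h2 : ∑ i, q.1 i * z o i ≠ 0
        · filter_upwards [haff0 q o h1 h2] with a ha _ _
          exact ha
        · exact Eventually.of_forall fun a _ h => absurd h h2
      · exact Eventually.of_forall fun a h => absurd h h1
  obtain ⟨a, ha1, ha2, ha3, ha4⟩ := exists_int hall
  have hx : ∀ (o : O) (i : Fin n), ∃ m : ℤ, (m : ℝ) =
      pt Λ (z o) (fun j => (a j : ℝ)) i + u o i := by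
    intro o i
    obtain ⟨x, hx⟩ := hΛ (fun j => a j.castSucc)
    obtain ⟨m, hm⟩ := hz o i
    obtain ⟨y, hy⟩ := hZ o κ
    refine ⟨x i + a (Fin.last k) * m + y i, ?_⟩
    simp only [hu]
    unfold pt
    rw [hx, hm, hy]
    push_cast
    ring
  choose x hx using hx
  refine ⟨x, ?_, ?_, ?_, ?_, ?_⟩
  · intro o
    refine ⟨fun j => (a j.castSucc : ℝ), (a (Fin.last k) : ℝ), fun j => (κ j : ℝ), fun i => ?_⟩
    rw [hx]
    rfl
  · intro f hf o h0
    simp only [hx] at h0
    exact ha1 f hf o h0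
  · intro q hq o o' h1 h2
    simp only [hx]
    exact ha2 q hq o o' h1 h2
  · intro q hq h1 o o'
    simp only [hx]
    rw [ha3 q hq o h1, ha3 q hq o' h1]
  · intro q hq h1 o h2
    simp only [hx]
    exact ha4 q hq o h1 h2

/-- Existence of inputs. Proof: choose an integer vector `κ` such that `f (Z o κ) ≠ 0` for all
`f ∈ F` and `o` for which `f` does not vanish on the range of `Z o` (use `exists_sign` and
`exists_int`); then take `θ, M` along `scale (k + 1)` as in `exists_point`. The constant vectors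
`Z o κ` do not matter for (3) and (4), because a shift of the parameters by a constant vector,
like the shift of `tendsto_scale`, preserves the filter `scale (k + 1)`; in (4), if `c` does not
vanish on the range of `Λ`, all the values `∑ i, c i * x o i + b` are values of the one polynomial
`∑ i, c i * Λ θ i` at shifted parameters. -/
theorem exists_inputs {J : Type*} [Fintype J] {n : ℕ} (Λ : (J → ℝ) →ₗ[ℝ] (Fin n → ℝ))
    (hΛ : ∀ θ : J → ℤ, ∃ x : Fin n → ℤ, ∀ i, Λ (fun j => (θ j : ℝ)) i = (x i : ℝ))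
    {O : Type*} [Finite O] (z : O → Fin n → ℝ) (hz : ∀ o i, ∃ m : ℤ, z o i = m)
    (Z : O → ((Fin n → ℝ) →ₗ[ℝ] (Fin n → ℝ)))
    (hZ : ∀ o, ∀ κ : Fin n → ℤ, ∃ x : Fin n → ℤ, ∀ i, Z o (fun j => (κ j : ℝ)) i = (x i : ℝ))
    (F : Set (MvPolynomial (Fin n) ℝ)) (hF : F.Finite)
    (Q : Set ((Fin 4 → Fin n) × MvPolynomial (Fin 4) ℝ)) (hQ : Q.Finite)
    (B : Set ((Fin n → ℝ) × ℝ)) (hB : B.Finite) :
    ∃ x : O → Fin n → ℤ,
      (∀ o, ∃ (θ : J → ℝ) (M : ℝ) (κ : Fin n → ℝ), ∀ i,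
        (x o i : ℝ) = Λ θ i + M * z o i + Z o κ i) ∧
      (∀ f ∈ F, ∀ o, MvPolynomial.eval (fun i => (x o i : ℝ)) f = 0 →
        ∀ κ, MvPolynomial.eval (Z o κ) f = 0) ∧
      (∀ q ∈ Q, ∀ o o', (∀ v : Fin n → ℝ, ∃ (ω : J → ℝ) (m : ℝ), ∀ i,
          v (q.1 i) = Λ ω (q.1 i) + m * z o' (q.1 i)) →
        (∃ c : ℝ, 0 < c ∧ ∃ ω : J → ℝ, ∀ i, z o (q.1 i) = c * z o' (q.1 i) + Λ ω (q.1 i)) →
        SignType.sign (MvPolynomial.eval (fun i => (x o (q.1 i) : ℝ)) q.2) =
          SignType.sign (MvPolynomial.eval (fun i => (x o' (q.1 i) : ℝ)) q.2)) ∧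
      (∀ q ∈ B, (∃ θ, ∑ i, q.1 i * Λ θ i ≠ 0) → ∀ o o',
        SignType.sign (∑ i, q.1 i * (x o i : ℝ) + q.2) =
          SignType.sign (∑ i, q.1 i * (x o' i : ℝ) + q.2)) ∧
      (∀ q ∈ B, (∀ θ, ∑ i, q.1 i * Λ θ i = 0) → ∀ o, ∑ i, q.1 i * z o i ≠ 0 →
        SignType.sign (∑ i, q.1 i * (x o i : ℝ) + q.2) =
          SignType.sign (∑ i, q.1 i * z o i)) := by
  classical
  set e := Fintype.equivFin J
  set Λ' : (Fin (Fintype.card J) → ℝ) →ₗ[ℝ] (Fin n → ℝ) :=
    Λ ∘ₗ LinearMap.funLeft ℝ ℝ e with hΛ'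
  have hap : ∀ θ i, Λ' θ i = Λ (fun j => θ (e j)) i := fun θ i => rfl
  have hap' : ∀ (θ : J → ℝ) i, Λ θ i = Λ' (fun j => θ (e.symm j)) i := by
    intro θ i
    rw [hap]
    simp
  obtain ⟨x, h1, h2, h3, h4, h5⟩ := exists_inputs_fin Λ' (fun θ => by
    obtain ⟨x, hx⟩ := hΛ (fun j => θ (e j))
    exact ⟨x, fun i => by rw [hap, ← hx]⟩) z hz Z hZ F hF Q hQ B hB
  refine ⟨x, ?_, h2, ?_, ?_, ?_⟩
  · intro o
    obtain ⟨θ, M, κ, h⟩ := h1 o
    exact ⟨fun j => θ (e j), M, κ, fun i => by rw [h i, hap]⟩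
  · intro q hq o o' hv hc
    refine h3 q hq o o' (fun v => ?_) ?_
    · obtain ⟨ω, m, h⟩ := hv v
      exact ⟨fun j => ω (e.symm j), m, fun i => by rw [h i, hap']⟩
    · obtain ⟨c, hc, ω, h⟩ := hc
      exact ⟨c, hc, fun j => ω (e.symm j), fun i => by rw [h i, hap']⟩
  · rintro q hq ⟨θ, hθ⟩
    refine h4 q hq ⟨fun j => θ (e.symm j), ?_⟩
    simpa only [hap'] using hθ
  · intro q hq h
    exact h5 q hq fun θ => by simp only [hap]; exact h _

end Pool.Agent.MixLin
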