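import Pool.Agent.MixLin.Defs

/-!
The questions of a decision tree, and the bound from a family of inputs which few questions can
tell from an input without solution.
-/

namespace Pool.Agent.MixLin

/-- A question. -/
inductive Qst (n : ℕ)
  | loc (pos : Fin 4 → Fin n) (m : ℕ) (P : Fin m → MvPolynomial (Fin 4) ℝ)
  | aff (c : Fin n → ℝ) (b : ℝ)
  | zero (f : MvPolynomial (Fin n) ℝ)

/-- The question has the same reply on the two inputs. -/
def Qst.Same {n : ℕ} (x y : Fin n → ℤ) : Qst n → Prop
  | loc pos _ P => ∀ j, SignType.sign (MvPolynomial.eval (fun i => (x (pos i) : ℝ)) (P j)) =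
      SignType.sign (MvPolynomial.eval (fun i => (y (pos i) : ℝ)) (P j))
  | aff c b => SignType.sign (∑ i, c i * (x i : ℝ) + b) = SignType.sign (∑ i, c i * (y i : ℝ) + b)
  | zero f => MvPolynomial.eval (fun i => (x i : ℝ)) f = 0 ↔
      MvPolynomial.eval (fun i => (y i : ℝ)) f = 0

/-- The question is admissible. -/
def Qst.Adm {n : ℕ} (C : ℝ) : Qst n → Prop
  | loc _ _ _ => True
  | aff c _ => {i | c i ≠ 0}.ncard ≤ 5 ∧ Separated C c
  | zero _ => True

/-- The number of inputs which the question may detect. -/
def Qst.wt {n : ℕ} : Qst n → ℕ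
  | loc _ _ _ => 3
  | aff _ _ => 3
  | zero f => f.totalDegree

namespace DTree

variable {n : ℕ}

/-- The questions of a tree. -/
def questions : DTree n → Set (Qst n)
  | leaf _ => ∅
  | loc pos m P next => insert (Qst.loc pos m P) (⋃ r, (next r).questions)
  | aff c b next => insert (Qst.aff c b) (⋃ r, (next r).questions)
  | zero f yes no => insert (Qst.zero f) (yes.questions ∪ no.questions)

lemma questions_finite (A : DTree n) : A.questions.Finite := by
  induction A with
  | leaf r => exact Set.finite_empty
  | loc pos m P next ih => exact (Set.finite_iUnion ih).insert _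
  | aff c b next ih => exact (Set.finite_iUnion ih).insert _
  | zero f yes no ih1 ih2 => exact (ih1.union ih2).insert _

lemma adm_questions {C : ℝ} {A : DTree n} (h : Admissible C A) : ∀ q ∈ A.questions, q.Adm C := by
  induction h with
  | leaf r => intro q hq; exact absurd hq (Set.notMem_empty _)
  | loc pos m P next _ ih =>
    intro q hq
    rcases hq with rfl | hq
    · trivial
    · obtain ⟨r, hr⟩ := Set.mem_iUnion.1 hq
      exact ih r q hr
  | aff c b next h1 h2 _ ih =>
    intro q hq
    rcases hq with rfl | hq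
    · exact ⟨h1, h2⟩
    · obtain ⟨r, hr⟩ := Set.mem_iUnion.1 hq
      exact ih r q hr
  | zero f yes no _ _ ih1 ih2 =>
    intro q hq
    rcases hq with rfl | hq | hq
    · trivial
    · exact ih1 q hq
    · exact ih2 q hq

/-- If every question `q` of the tree distinguishes the input `x` from at most `q.wt` of the inputs
`y t`, then the answer on `x` differs from the answer on `y t` for at most `3 * cost` values
of `t`. -/
lemma card_answer_ne {T : Type*} (x : Fin n → ℤ) (y : T → Fin n → ℤ) (A : DTree n)
    (h : ∀ q ∈ A.questions, ∀ S : Finset T, (∀ t ∈ S, ¬ q.Same x (y t)) → S.card ≤ q.wt) :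
    ∀ S : Finset T, (∀ t ∈ S, A.answer (y t) ≠ A.answer x) → S.card ≤ 3 * A.cost x := by
  classical
  have split : ∀ (q : Qst n) (S : Finset T), S.card =
      (S.filter fun t => ¬ q.Same x (y t)).card + (S.filter fun t => q.Same x (y t)).card := by
    intro q S
    rw [← Finset.card_filter_add_card_filter_not (s := S) (fun t => q.Same x (y t)), add_comm]
  induction A with
  | leaf r =>
    intro S hS
    have : S = ∅ := by
      rw [Finset.eq_empty_iff_forall_notMem]
      intro t ht
      exact hS t ht rfl
    simp [this]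
  | loc pos m P next ih =>
    intro S hS
    set r : Fin m → SignType :=
      fun j => SignType.sign (MvPolynomial.eval (fun i => (x (pos i) : ℝ)) (P j)) with hr
    have h1 := h (Qst.loc pos m P) (Set.mem_insert _ _)
      (S.filter fun t => ¬ (Qst.loc pos m P).Same x (y t)) (fun t ht => (Finset.mem_filter.1 ht).2)
    have h2 := ih r (fun q' hq' => h q' (Set.mem_insert_of_mem _
      (Set.mem_iUnion.2 ⟨r, hq'⟩))) (S.filter fun t => (Qst.loc pos m P).Same x (y t))
      (fun t ht => by
        obtain ⟨ht1, ht2⟩ := Finset.mem_filter.1 ht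
        have h3 := hS t ht1
        have h4 : (fun j => SignType.sign (MvPolynomial.eval (fun i => (y t (pos i) : ℝ)) (P j))) =
            r := funext fun j => (ht2 j).symm
        simp only [answer, h4] at h3
        exact h3)
    rw [split (Qst.loc pos m P) S]
    have h5 : (loc pos m P next).cost x = (next r).cost x + 1 := rfl
    have h6 : (Qst.loc pos m P).wt = 3 := rfl
    rw [h5]
    omega
  | aff c b next ih =>
    intro S hS
    set r : SignType := SignType.sign (∑ i, c i * (x i : ℝ) + b) with hr
    have h1 := h (Qst.aff c b) (Set.mem_insert _ _)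
      (S.filter fun t => ¬ (Qst.aff c b).Same x (y t)) (fun t ht => (Finset.mem_filter.1 ht).2)
    have h2 := ih r (fun q' hq' => h q' (Set.mem_insert_of_mem _
      (Set.mem_iUnion.2 ⟨r, hq'⟩))) (S.filter fun t => (Qst.aff c b).Same x (y t))
      (fun t ht => by
        obtain ⟨ht1, ht2⟩ := Finset.mem_filter.1 ht
        have h3 := hS t ht1
        have h4 : SignType.sign (∑ i, c i * (y t i : ℝ) + b) = r := ht2.symm
        simp only [answer, h4] at h3
        exact h3)
    rw [split (Qst.aff c b) S]
    have h5 : (aff c b next).cost x = (next r).cost x + 1 := rfl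
    have h6 : (Qst.aff c b).wt = 3 := rfl
    rw [h5]
    omega
  | zero f yes no ih1 ih2 =>
    intro S hS
    have h1 := h (Qst.zero f) (Set.mem_insert _ _)
      (S.filter fun t => ¬ (Qst.zero f).Same x (y t)) (fun t ht => (Finset.mem_filter.1 ht).2)
    rw [split (Qst.zero f) S]
    have h6 : (Qst.zero f).wt = f.totalDegree := rfl
    by_cases h0 : MvPolynomial.eval (fun i => (x i : ℝ)) f = 0
    · have h2 := ih1 (fun q' hq' => h q' (Set.mem_insert_of_mem _ (Or.inl hq')))
        (S.filter fun t => (Qst.zero f).Same x (y t)) (fun t ht => by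
          obtain ⟨ht1, ht2⟩ := Finset.mem_filter.1 ht
          have h3 := hS t ht1
          have h4 : MvPolynomial.eval (fun i => (y t i : ℝ)) f = 0 := ht2.1 h0
          simp only [answer, h4, h0, if_true] at h3
          exact h3)
      have h5 : (zero f yes no).cost x = yes.cost x + f.totalDegree := by
        simp only [cost, if_pos h0]
      rw [h5]
      omega
    · have h2 := ih2 (fun q' hq' => h q' (Set.mem_insert_of_mem _ (Or.inr hq')))
        (S.filter fun t => (Qst.zero f).Same x (y t)) (fun t ht => by
          obtain ⟨ht1, ht2⟩ := Finset.mem_filter.1 ht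
          have h3 := hS t ht1
          have h4 : ¬ MvPolynomial.eval (fun i => (y t i : ℝ)) f = 0 := fun hy => h0 (ht2.2 hy)
          simp only [answer, if_neg h4, if_neg h0] at h3
          exact h3)
      have h5 : (zero f yes no).cost x = no.cost x + f.totalDegree := by
        simp only [cost, if_neg h0]
      rw [h5]
      omega

end DTree

/-- If for every finite set of admissible questions there is an input `x` without solution and a
family of inputs `y t` with solutions such that every question `q` of the set distinguishes `x` from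
at most `q.wt` of the `y t`, then the expected cost is large. -/
theorem tree_bound {T : Type*} [Fintype T] {σ : ℤ} {n : ℕ} {C : ℝ} {E : ℝ}
    {Ω : Type} [Fintype Ω] {μ : Ω → ℝ} {A : Ω → DTree n} (h : Solver σ n C E μ A)
    (hin : ∀ Q : Set (Qst n), Q.Finite → (∀ q ∈ Q, q.Adm C) →
      ∃ (x : Fin n → ℤ) (y : T → Fin n → ℤ),
        Function.Injective x ∧ (∀ t, Function.Injective (y t)) ∧ ¬ HasTriple σ x ∧
        (∀ t, HasTriple σ (y t)) ∧ ∀ q ∈ Q, ∀ S : Finset T,
          (∀ t ∈ S, ¬ q.Same x (y t)) → S.card ≤ q.wt) :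
    (Fintype.card T : ℝ) ≤ 9 * E := by
  classical
  obtain ⟨hμ, hμ1, hA, hx⟩ := h
  obtain ⟨x, y, h1, h2, h3, h4, h5⟩ := hin (⋃ ω, (A ω).questions)
    (Set.finite_iUnion fun ω => (A ω).questions_finite) (by
      intro q hq
      obtain ⟨ω, hω⟩ := Set.mem_iUnion.1 hq
      exact DTree.adm_questions (hA ω) q hω)
  have h5' : ∀ ω, ∀ S : Finset T, (∀ t ∈ S, (A ω).answer (y t) ≠ (A ω).answer x) →
      S.card ≤ 3 * (A ω).cost x := fun ω =>
    DTree.card_answer_ne x y (A ω) fun q hq => h5 q (Set.mem_iUnion.2 ⟨ω, hq⟩)
  set a : Ω → ℝ := fun ω => if ((A ω).answer x = true ↔ HasTriple σ x) then μ ω else 0 with ha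
  set b' : T → Ω → ℝ := fun t ω =>
    if ((A ω).answer (y t) = true ↔ HasTriple σ (y t)) then μ ω else 0 with hb
  set c : T → Ω → ℝ := fun t ω => if (A ω).answer (y t) ≠ (A ω).answer x then μ ω else 0 with hc
  have ha1 : 2 / 3 ≤ ∑ ω, a ω := by
    refine le_trans (hx x h1).1 (le_of_eq ?_)
    apply Finset.sum_congr rfl
    intro ω _
    simp only [ha]
  have hb1 : ∀ t, 2 / 3 ≤ ∑ ω, b' t ω := by
    intro t
    refine le_trans (hx (y t) (h2 t)).1 (le_of_eq ?_)
    apply Finset.sum_congr rfl
    intro ω _
    simp only [hb]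
  have hc1 : ∀ t, 1 / 3 ≤ ∑ ω, c t ω := by
    intro t
    have : ∀ ω, a ω + b' t ω - μ ω ≤ c t ω := by
      intro ω
      have h0 := hμ ω
      by_cases q1 : ((A ω).answer x = true ↔ HasTriple σ x)
      · by_cases q2 : ((A ω).answer (y t) = true ↔ HasTriple σ (y t))
        · have q3 : (A ω).answer (y t) ≠ (A ω).answer x := by
            have e1 : (A ω).answer (y t) = true := q2.2 (h4 t)
            have e2 : (A ω).answer x = false := by
              rw [← Bool.not_eq_true]
              intro h
              exact h3 (q1.1 h)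
            rw [e1, e2]
            simp
          simp only [ha, hb, hc, if_pos q1, if_pos q2, if_pos q3]
          linarith
        · simp only [ha, hb, hc, if_pos q1, if_neg q2]
          split_ifs <;> linarith
      · simp only [ha, hb, hc, if_neg q1]
        split_ifs <;> linarith
    have h7 := Finset.sum_le_sum fun ω (_ : ω ∈ Finset.univ) => this ω
    rw [Finset.sum_sub_distrib, Finset.sum_add_distrib, hμ1] at h7
    have := hb1 t
    linarith
  have hc2 : ∀ ω, ∑ t, c t ω ≤ 3 * (μ ω * ((A ω).cost x : ℝ)) := by
    intro ω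
    have hcard := h5' ω (Finset.univ.filter fun t => (A ω).answer (y t) ≠ (A ω).answer x)
      (fun t ht => (Finset.mem_filter.1 ht).2)
    have e1 : ∑ t, c t ω = ((Finset.univ.filter fun t =>
        (A ω).answer (y t) ≠ (A ω).answer x).card : ℝ) * μ ω := by
      simp only [hc]
      rw [← Finset.sum_filter, Finset.sum_const, nsmul_eq_mul]
    rw [e1]
    have h8 : ((Finset.univ.filter fun t => (A ω).answer (y t) ≠ (A ω).answer x).card : ℝ) ≤
        ((3 * (A ω).cost x : ℕ) : ℝ) := by exact_mod_cast hcard
    have := mul_le_mul_of_nonneg_right h8 (hμ ω)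
    push_cast at this
    linarith
  have h9 : (Fintype.card T : ℝ) * (1 / 3) ≤ 3 * E := by
    calc (Fintype.card T : ℝ) * (1 / 3) = ∑ _t : T, (1 / 3 : ℝ) := by
          rw [Finset.sum_const, nsmul_eq_mul, Finset.card_univ]
      _ ≤ ∑ t, ∑ ω, c t ω := Finset.sum_le_sum fun t _ => hc1 t
      _ = ∑ ω, ∑ t, c t ω := Finset.sum_comm
      _ ≤ ∑ ω, 3 * (μ ω * ((A ω).cost x : ℝ)) := Finset.sum_le_sum fun ω _ => hc2 ω
      _ = 3 * ∑ ω, μ ω * ((A ω).cost x : ℝ) := by rw [Finset.mul_sum]
      _ ≤ 3 * E := mul_le_mul_of_nonneg_left (hx x h1).2 (by norm_num)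
  linarith

end Pool.Agent.MixLin
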