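import Pool.Agent.MixLin.Full
import Pool.Agent.MixLin.Tree
import Pool.Agent.MixLin.Hyper
import Pool.Agent.MixLin.Point

/-!
The adversary for the three kinds of questions, on a graph with perturbations `Pert5`.
-/

set_option linter.unusedSectionVars false
set_option linter.unusedSimpArgs false

namespace Pool.Agent.MixLin

open Pool.Agent.FourLin Finset Filter

/-- Change the coordinate `i` so that the sum of the coordinates `i` and `j` is `s` times the
coordinate `k`. -/
noncomputable def fix {n : ℕ} (s : ℝ) (i j k : Fin n) : (Fin n → ℝ) →ₗ[ℝ] (Fin n → ℝ) where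
  toFun κ l := if l = i then s * κ k - κ j else κ l
  map_add' κ κ' := by
    funext l
    simp only [Pi.add_apply]
    split_ifs <;> ring
  map_smul' r κ := by
    funext l
    simp only [Pi.smul_apply, smul_eq_mul, RingHom.id_apply]
    split_ifs <;> ring

lemma fix_apply {n : ℕ} (s : ℝ) (i j k : Fin n) (κ : Fin n → ℝ) (l : Fin n) :
    fix s i j k κ l = if l = i then s * κ k - κ j else κ l := rfl

lemma fix_rel {n : ℕ} (s : ℝ) {i j k : Fin n} (hij : i ≠ j) (hik : i ≠ k) (κ : Fin n → ℝ) :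
    fix s i j k κ i + fix s i j k κ j = s * fix s i j k κ k := by
  simp only [fix_apply, if_true, if_neg hij.symm, if_neg hik.symm]
  ring

lemma fix_of_rel {n : ℕ} (s : ℝ) {i j k : Fin n} {κ : Fin n → ℝ} (h : κ i + κ j = s * κ k) :
    fix s i j k κ = κ := by
  funext l
  rw [fix_apply]
  split_ifs with hl
  · rw [hl]; linarith
  · rfl

/-- On the hyperplane `x i + x j = s * x k` no two coordinates are always equal. -/
lemma exists_ne {n : ℕ} {s : ℝ} (hs : s = 1 ∨ s = -1) {i j k a b : Fin n} (hij : i ≠ j)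
    (hik : i ≠ k) (hjk : j ≠ k) (hab : a ≠ b) :
    ∃ κ : Fin n → ℝ, κ i + κ j = s * κ k ∧ κ a ≠ κ b := by
  have hs0 : s ≠ 0 := by rcases hs with rfl | rfl <;> norm_num
  have hss : s * s = 1 := by rcases hs with rfl | rfl <;> norm_num
  set e : Fin n → Fin n → ℝ := fun l m => if m = l then 1 else 0 with he
  have e1 : ∀ l, e l l = 1 := fun l => by simp [he]
  have e0 : ∀ l m, m ≠ l → e l m = 0 := fun l m h => by simp [he, h]
  -- the value of the linear form at the basis vector of `a`
  set v : ℝ := e a i + e a j - s * e a k with hv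
  by_cases h1 : i ≠ a ∧ i ≠ b
  · refine ⟨fun m => e a m - v * e i m, ?_, ?_⟩
    · simp only [e1, e0 i j (Ne.symm hij), e0 i k (Ne.symm hik), hv]
      ring
    · simp only [e1, e0 i a h1.1.symm, e0 i b h1.2.symm, e0 a b hab.symm]
      norm_num
  by_cases h2 : j ≠ a ∧ j ≠ b
  · refine ⟨fun m => e a m - v * e j m, ?_, ?_⟩
    · simp only [e1, e0 j i hij, e0 j k (Ne.symm hjk), hv]
      ring
    · simp only [e1, e0 j a h2.1.symm, e0 j b h2.2.symm, e0 a b hab.symm]
      norm_num
  have h3 : k ≠ a ∧ k ≠ b := by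
    constructor
    · rintro rfl
      apply h1
      refine ⟨hik, ?_⟩
      rintro rfl
      exact h2 ⟨hjk, hij.symm⟩
    · rintro rfl
      apply h1
      refine ⟨?_, hik⟩
      rintro rfl
      exact h2 ⟨hij.symm, hjk⟩
  refine ⟨fun m => e a m + s * v * e k m, ?_, ?_⟩
  · simp only [e1, e0 k i hik, e0 k j hjk, hv]
    linear_combination (-(e a i + e a j - s * e a k)) * hss
  · simp only [e1, e0 k a h3.1.symm, e0 k b h3.2.symm, e0 a b hab.symm]
    norm_num

variable {X I T : Type*} [DecidableEq X] [Fintype I] [DecidableEq I] [Fintype T]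
variable {Γ : TGraph X I T} {C : ℝ}

/-- The three positions of a triangle. -/
def tp (Γ : TGraph X I T) {n : ℕ} (emb : I ↪ Fin n) (t : T) (k : ZMod 3) : Fin n :=
  emb (Γ.edge t k)

lemma tp_ne {n : ℕ} (emb : I ↪ Fin n) (t : T) {k k' : ZMod 3} (hk : k ≠ k') :
    tp Γ emb t k ≠ tp Γ emb t k' := by
  intro h
  have := emb.injective h
  have h1 := Γ.edge_col t k
  rw [this, Γ.edge_col] at h1
  exact hk h1.symm

lemma tp_zed {n : ℕ} (emb : I ↪ Fin n) {s : ℝ} (hs : s = 1 ∨ s = -1) (t : T) (u : I → ℝ) :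
    zed Γ s emb u (tp Γ emb t 0) + zed Γ s emb u (tp Γ emb t 1) -
      s * zed Γ s emb u (tp Γ emb t 2) = Γ.tau t u := by
  have hss : s * s = 1 := by rcases hs with rfl | rfl <;> norm_num
  unfold TGraph.tau
  have h3 : (Finset.univ : Finset (ZMod 3)) = {0, 1, 2} := by decide
  rw [h3, Finset.sum_insert (by decide), Finset.sum_insert (by decide),
    Finset.sum_singleton]
  simp only [tp, zed, emb.injective.extend_apply, sg, Γ.edge_col, if_true]
  rw [if_neg (by decide), if_neg (by decide)]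
  linear_combination (u (Γ.edge t 2)) * hss

lemma tp_base {n : ℕ} (emb : I ↪ Fin n) {s : ℝ} (hs : s = 1 ∨ s = -1) (t : T)
    (θ : vset Γ ⊕ Fin n → ℝ) :
    base Γ s emb θ (tp Γ emb t 0) + base Γ s emb θ (tp Γ emb t 1) -
      s * base Γ s emb θ (tp Γ emb t 2) = 0 := by
  have hss : s * s = 1 := by rcases hs with rfl | rfl <;> norm_num
  have n0 := Γ.edge_next t 0
  have n1 := Γ.edge_next t 1
  have n2 := Γ.edge_next t 2
  rw [show (0 + 1 : ZMod 3) = 1 by decide] at n0
  rw [show (1 + 1 : ZMod 3) = 2 by decide] at n1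
  rw [show (2 + 1 : ZMod 3) = 0 by decide] at n2
  simp only [tp, base_edge, sg, Γ.edge_col, if_true, n0, n1, n2]
  rw [if_neg (by decide), if_neg (by decide)]
  linear_combination (θ (Sum.inl ⟨Γ.src (Γ.edge t 2), src_mem _⟩) -
    θ (Sum.inl ⟨Γ.src (Γ.edge t 0), src_mem _⟩)) * hss

/-- The adversary. -/
theorem mixed_inputs (P : Pert5 Γ C) (hΓ : Γ.Penta) (hw : ∀ e, ∃ z : ℤ, P.w e = z)
    (hwt : ∀ t e, ∃ z : ℤ, P.wt t e = z) {n : ℕ} (emb : I ↪ Fin n) {σ : ℤ}
    (hσ : σ = 1 ∨ σ = -1) (Q : Set (Qst n)) (hQ : Q.Finite)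
    (hQa : ∀ q ∈ Q, q.Adm C) :
    ∃ (x : Fin n → ℤ) (y : T → Fin n → ℤ),
      Function.Injective x ∧ (∀ t, Function.Injective (y t)) ∧ ¬ HasTriple σ x ∧
      (∀ t, HasTriple σ (y t)) ∧ ∀ q ∈ Q, ∀ S : Finset T,
        (∀ t ∈ S, ¬ q.Same x (y t)) → S.card ≤ q.wt := by
  classical
  have hσ' : (σ : ℝ) = 1 ∨ (σ : ℝ) = -1 := by
    rcases hσ with rfl | rfl
    · left; norm_num
    · right; norm_num
  set Fr := fourFrame (toPert P) hw hwt emb hσ with hFr
  have hΛ : Fr.Λ = base Γ (σ : ℝ) emb := rfl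
  have hz0 : Fr.z none = zed Γ (σ : ℝ) emb P.w := rfl
  have hzt : ∀ t, Fr.z (some t) = zed Γ (σ : ℝ) emb (P.wt t) := fun t => rfl
  set l : T → Fin n → ℝ := fun t => Pi.single (tp Γ emb t 0) 1 + Pi.single (tp Γ emb t 1) 1 -
    (σ : ℝ) • Pi.single (tp Γ emb t 2) 1 with hl
  have hlsum : ∀ t (u : Fin n → ℝ), ∑ i, l t i * u i =
      u (tp Γ emb t 0) + u (tp Γ emb t 1) - σ * u (tp Γ emb t 2) :=
    fun t u => sum_form3 σ _ _ _ u
  have h01 : ∀ t, tp Γ emb t 0 ≠ tp Γ emb t 1 := fun t => tp_ne emb t (by decide)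
  have h02 : ∀ t, tp Γ emb t 0 ≠ tp Γ emb t 2 := fun t => tp_ne emb t (by decide)
  have h12 : ∀ t, tp Γ emb t 1 ≠ tp Γ emb t 2 := fun t => tp_ne emb t (by decide)
  have hl1 : ∀ t, l t (tp Γ emb t 0) = 1 := by
    intro t
    simp [hl, Pi.single_eq_of_ne (h01 t), Pi.single_eq_of_ne (h02 t)]
  have hprop : ∀ t t' : T, t ≠ t' → ∀ a b : ℝ, (∀ i, a * l t i = b * l t' i) →
      a = 0 ∧ b = 0 := by
    intro t t' htt a b hab
    have h1 : ∀ u : Fin n → ℝ, a * ∑ i, l t i * u i = b * ∑ i, l t' i * u i := by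
      intro u
      rw [Finset.mul_sum, Finset.mul_sum]
      apply Finset.sum_congr rfl
      intro i _
      rw [← mul_assoc, ← mul_assoc, hab i]
    have h2 := h1 (zed Γ (σ : ℝ) emb (P.wt t))
    rw [hlsum, hlsum, tp_zed emb hσ', tp_zed emb hσ', P.zero t, mul_zero] at h2
    have h3 := (toPert P).pos' t t' (Ne.symm htt)
    have hb : b = 0 := by
      rcases mul_eq_zero.1 h2.symm with h | h
      · exact h
      · exact absurd h h3.ne'
    refine ⟨?_, hb⟩
    have h4 := hab (tp Γ emb t 0)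
    rw [hl1, hb, zero_mul, mul_one] at h4
    exact h4
  -- the parameters
  set Z : Option T → ((Fin n → ℝ) →ₗ[ℝ] (Fin n → ℝ)) := fun o => o.elim LinearMap.id
    (fun t => fix (σ : ℝ) (tp Γ emb t 0) (tp Γ emb t 1) (tp Γ emb t 2)) with hZ
  have hZint : ∀ o, ∀ κ : Fin n → ℤ, ∃ x : Fin n → ℤ, ∀ i,
      Z o (fun j => (κ j : ℝ)) i = (x i : ℝ) := by
    intro o κ
    cases o with
    | none => exact ⟨κ, fun i => rfl⟩
    | some t =>
      refine ⟨fun i => if i = tp Γ emb t 0 then σ * κ (tp Γ emb t 2) - κ (tp Γ emb t 1) else κ i,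
        fun i => ?_⟩
      simp only [hZ, Option.elim, fix_apply]
      split_ifs
      · push_cast
        rfl
      · rfl
  set F2 : Fin n × Fin n → MvPolynomial (Fin n) ℝ := fun i =>
    MvPolynomial.X i.1 - MvPolynomial.X i.2 with hF2
  set F3 : Fin n × Fin n × Fin n → MvPolynomial (Fin n) ℝ := fun i =>
    MvPolynomial.X i.1 + MvPolynomial.X i.2.1 - MvPolynomial.C (σ : ℝ) * MvPolynomial.X i.2.2
    with hF3
  have hFfin : ({f | Qst.zero f ∈ Q} ∪ (Set.range F2 ∪ Set.range F3)).Finite := by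
    refine Set.Finite.union ?_ ((Set.finite_range _).union (Set.finite_range _))
    exact hQ.preimage (f := fun f : MvPolynomial (Fin n) ℝ => Qst.zero f)
      (fun f _ g _ h => by simpa using h)
  have hQfin : (⋃ q ∈ Q, {r : (Fin 4 → Fin n) × MvPolynomial (Fin 4) ℝ |
      ∃ m P j, q = Qst.loc r.1 m P ∧ P j = r.2}).Finite := by
    refine hQ.biUnion fun q _ => ?_
    cases q with
    | loc pos m P =>
      refine (Set.finite_range (fun j => (pos, P j))).subset ?_
      rintro ⟨r1, r2⟩ ⟨m', P', j, h1, h2⟩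
      simp only [Qst.loc.injEq] at h1
      obtain ⟨h3, h4, h5⟩ := h1
      subst h3 h4
      rw [heq_eq_eq] at h5
      subst h5
      exact ⟨j, by simp [h2]⟩
    | aff c b =>
      refine Set.finite_empty.subset ?_
      rintro r ⟨m', P', j, h1, h2⟩
      simp at h1
    | zero f =>
      refine Set.finite_empty.subset ?_
      rintro r ⟨m', P', j, h1, h2⟩
      simp at h1
  have hBfin : ({r : (Fin n → ℝ) × ℝ | Qst.aff r.1 r.2 ∈ Q}).Finite :=
    hQ.preimage (f := fun r : (Fin n → ℝ) × ℝ => Qst.aff r.1 r.2)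
      (fun r _ r' _ h => by
        simp only [Qst.aff.injEq] at h
        exact Prod.ext h.1 h.2)
  obtain ⟨x, p1, p2, p3, p4, p5⟩ := exists_inputs Fr.Λ Fr.int Fr.z Fr.zint Z hZint _ hFfin _
    hQfin _ hBfin
  have hvan : ∀ (f : MvPolynomial (Fin n) ℝ), (Qst.zero f ∈ Q ∨ f ∈ Set.range F2 ∪ Set.range F3) →
      (MvPolynomial.eval (fun i => (x none i : ℝ)) f = 0 → f = 0) ∧
      ∀ t, MvPolynomial.eval (fun i => (x (some t) i : ℝ)) f = 0 → ∀ κ : Fin n → ℝ,
        κ (tp Γ emb t 0) + κ (tp Γ emb t 1) = σ * κ (tp Γ emb t 2) →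
        MvPolynomial.eval κ f = 0 := by
    intro f hf
    refine ⟨fun h => ?_, fun t h κ hκ => ?_⟩
    · apply MvPolynomial.funext
      intro κ
      rw [map_zero]
      exact p2 f hf none h κ
    · have := p2 f hf (some t) h κ
      simp only [hZ, Option.elim] at this
      rwa [fix_of_rel (σ : ℝ) hκ] at this
  refine ⟨x none, fun t => x (some t), ?_, ?_, ?_, ?_, ?_⟩
  · intro i j hxy
    by_contra hne
    have h1 := (hvan (F2 (i, j)) (Or.inr (Or.inl ⟨_, rfl⟩))).1 (by
      simp [hF2, hxy])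
    have h2 := congrArg (MvPolynomial.eval (Pi.single i 1 : Fin n → ℝ)) h1
    simp [hF2, Pi.single_eq_of_ne (Ne.symm hne)] at h2
  · intro t i j hxy
    by_contra hne
    obtain ⟨κ, hκ, hκne⟩ := exists_ne hσ' (h01 t) (h02 t) (h12 t) hne
    have h1 := (hvan (F2 (i, j)) (Or.inr (Or.inl ⟨_, rfl⟩))).2 t (by
      have : x (some t) i = x (some t) j := hxy
      simp [hF2, this]) κ hκ
    simp only [hF2, map_sub, MvPolynomial.eval_X] at h1
    exact hκne (sub_eq_zero.1 h1)
  · rintro ⟨i, j, k, hij, hik, hjk, hsol⟩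
    have h1 := (hvan (F3 (i, j, k)) (Or.inr (Or.inr ⟨_, rfl⟩))).1 (by
      simp only [hF3, map_sub, map_add, map_mul, MvPolynomial.eval_X, MvPolynomial.eval_C]
      rw [sub_eq_zero]
      exact_mod_cast hsol)
    have h2 := congrArg (MvPolynomial.eval (Pi.single i 1 : Fin n → ℝ)) h1
    simp [hF3, Pi.single_eq_of_ne (Ne.symm hij), Pi.single_eq_of_ne (Ne.symm hik)] at h2
  · intro t
    refine ⟨tp Γ emb t 0, tp Γ emb t 1, tp Γ emb t 2, h01 t, h02 t, h12 t, ?_⟩
    obtain ⟨θ, M, κ, hx⟩ := p1 (some t)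
    have h1 := tp_base (Γ := Γ) emb hσ' t θ
    have h2 := tp_zed (Γ := Γ) emb hσ' t (P.wt t)
    rw [P.zero t] at h2
    have h3 := fix_rel (σ : ℝ) (h01 t) (h02 t) κ
    have h4 : (x (some t) (tp Γ emb t 0) : ℝ) + x (some t) (tp Γ emb t 1) =
        σ * x (some t) (tp Γ emb t 2) := by
      rw [hx, hx, hx, hΛ, hzt]
      simp only [hZ, Option.elim]
      linear_combination h1 + M * h2 + h3
    exact_mod_cast h4
  · intro q hq S hS
    cases q with
    | loc pos m P' =>
      refine le_trans (Fr.good pos S ?_) (show 2 ≤ 3 by norm_num)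
      intro t ht hex
      apply hS t ht
      intro j
      exact (p3 (pos, P' j) (Set.mem_biUnion hq ⟨m, P', j, rfl, rfl⟩) (some t) none
        (fun v => full_four (toPert P) emb hσ' pos v) hex).symm
    | aff c b =>
      obtain ⟨hc5, hcs⟩ := hQa _ hq
      by_cases hex : ∃ θ, ∑ i, c i * Fr.Λ θ i ≠ 0
      · have : S = ∅ := by
          rw [Finset.eq_empty_iff_forall_notMem]
          intro t ht
          exact hS t ht (p4 (c, b) hq hex none (some t))
        simp [this]
      · push Not at hex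
        obtain ⟨hd0, hcirc⟩ := of_base_eq_zero (σ : ℝ) emb c hex
        have hcard := card_filter_le emb c (sg Γ (σ : ℝ)) 5 hc5
        have hsep : FourLin.Separated C (fun e => c (emb e) * sg Γ (σ : ℝ) e) :=
          separated_mul_sg hσ' emb hcs
        by_cases h0 : (fun e => c (emb e) * sg Γ (σ : ℝ) e) = 0
        · have hc0 : c = 0 := by
            funext j
            by_cases hj : ∃ e, emb e = j
            · obtain ⟨e, rfl⟩ := hj
              exact (mul_eq_zero.1 (congrFun h0 e)).resolve_right (sg_ne_zero hσ' e)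
            · exact hd0 j (fun e he => hj ⟨e, he⟩)
          have : S = ∅ := by
            rw [Finset.eq_empty_iff_forall_notMem]
            intro t ht
            apply hS t ht
            simp [Qst.Same, hc0]
          simp [this]
        · have hne := P.ne_zero hΓ hcirc hcard hsep h0
          refine le_trans (Finset.card_le_card ?_) (P.card_sign_ne hΓ hcirc hcard hsep)
          intro t ht
          rw [Finset.mem_filter]
          refine ⟨mem_univ _, ?_⟩
          intro hsgn
          apply hS t ht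
          have e0 : ∑ i, c i * Fr.z none i ≠ 0 := by
            rw [hz0, sum_zed]
            exact hne
          have e1 : ∑ i, c i * Fr.z (some t) i ≠ 0 := by
            rw [hzt, sum_zed]
            intro h
            rw [h, sign_zero, eq_comm, sign_eq_zero_iff] at hsgn
            exact hne hsgn
          have g0 := p5 (c, b) hq hex none e0
          have g1 := p5 (c, b) hq hex (some t) e1
          show SignType.sign _ = SignType.sign _
          rw [g0, g1, hz0, hzt, sum_zed, sum_zed]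
          exact hsgn.symm
    | zero f =>
      by_cases hf : f = 0
      · have : S = ∅ := by
          rw [Finset.eq_empty_iff_forall_notMem]
          intro t ht
          apply hS t ht
          simp [Qst.Same, hf]
        simp [this]
      · have hx0 : MvPolynomial.eval (fun i => (x none i : ℝ)) f ≠ 0 := fun h =>
          hf ((hvan f (Or.inl hq)).1 h)
        refine card_hyperplanes f hf le_rfl S l (fun t _ t' _ => hprop t t')
          (fun t _ => ⟨tp Γ emb t 0, by rw [hl1]; exact one_ne_zero⟩) ?_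
        intro t ht κ hκ
        have h1 := hS t ht
        have h2 : MvPolynomial.eval (fun i => (x (some t) i : ℝ)) f = 0 := by
          by_contra hne
          apply h1
          show _ ↔ _
          exact ⟨fun h => absurd h hx0, fun h => absurd h hne⟩
        apply (hvan f (Or.inl hq)).2 t h2 κ
        rw [hlsum] at hκ
        linarith

/-- The bound for a graph with perturbations. -/
theorem mixed_bound (P : Pert5 Γ C) (hΓ : Γ.Penta) (hw : ∀ e, ∃ z : ℤ, P.w e = z)
    (hwt : ∀ t e, ∃ z : ℤ, P.wt t e = z) {n : ℕ} (emb : I ↪ Fin n) {σ : ℤ}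
    (hσ : σ = 1 ∨ σ = -1) {E : ℝ} {Ω : Type} [Fintype Ω] {μ : Ω → ℝ}
    {A : Ω → DTree n} (h : Solver σ n C E μ A) : (Fintype.card T : ℝ) ≤ 9 * E :=
  tree_bound h fun Q hQ hQa => mixed_inputs P hΓ hw hwt emb hσ Q hQ hQa

end Pool.Agent.MixLin
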